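import Pool.Agent.helper10.OM.SpecG

/-!
MP_bf63dc, project OM, row GRR: ratio classes
-/

set_option autoImplicit false

namespace Pool.Agent.OM

open Finset Real Pool.Agent.AT Pool.Agent.helper85.FC

theorem GRR_mem {F : Finset ℕ} {p : ℕ × ℕ} (hp : p ∈ FF F) : p.1 ∈ F ∧ p.2 ∈ F := by
  unfold FF at hp
  rw [mem_filter, mem_product] at hp
  exact hp.1

theorem GRR_rr {F : Finset ℕ} {r : ℕ × ℕ} (hr : r ∈ RR F) : ∃ p ∈ FF F, rp p.1 p.2 = r := by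
  unfold RR at hr
  rw [mem_image] at hr
  exact hr

theorem GRR_one {s s' : ℕ} (hs : 1 ≤ s) (hs' : 1 ≤ s') :
    1 ≤ (rp s s').1 ∧ 1 ≤ (rp s s').2 ∧ (rp s s').1 * Nat.gcd s s' = s ∧ (rp s s').2 * Nat.gcd s s' = s' ∧
      Nat.Coprime (rp s s').1 (rp s s').2 ∧ 0 < Nat.gcd s s' := by
  have hg : 0 < Nat.gcd s s' := Nat.gcd_pos_of_pos_left _ hs
  exact ⟨Nat.div_pos (Nat.gcd_le_left _ hs) hg, Nat.div_pos (Nat.gcd_le_right _ hs') hg,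
    Nat.div_mul_cancel (Nat.gcd_dvd_left _ _), Nat.div_mul_cancel (Nat.gcd_dvd_right _ _),
    Nat.coprime_div_gcd_div_gcd hg, hg⟩

theorem GRR_uniq {a b c d : ℕ} (ha : 1 ≤ a) (hab : Nat.Coprime a b) (hcd : Nat.Coprime c d) (h : a * d = c * b) :
    a = c ∧ b = d := by
  have h1 : a ∣ c := hab.dvd_of_dvd_mul_right (Dvd.intro d h)
  have h2 : c ∣ a := hcd.dvd_of_dvd_mul_right (Dvd.intro b h.symm)
  have h3 : a = c := Nat.dvd_antisymm h1 h2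
  subst h3
  exact ⟨rfl, (Nat.eq_of_mul_eq_mul_left ha h).symm⟩

theorem GRR : GRR_stmt := by
  intro F H hF
  have h1 : ∀ r ∈ RR F, 1 ≤ r.1 ∧ r.1 ≤ H ∧ 1 ≤ r.2 ∧ r.2 ≤ H ∧ Nat.Coprime r.1 r.2 := by
    intro r hr
    obtain ⟨p, hp, rfl⟩ := GRR_rr hr
    obtain ⟨hp1, hp2⟩ := GRR_mem hp
    obtain ⟨h1, h2, h3, h4, h5, h6⟩ := GRR_one (hF _ hp1).1 (hF _ hp2).1
    refine ⟨h1, ?_, h2, ?_, h5⟩
    · calc (rp p.1 p.2).1 ≤ (rp p.1 p.2).1 * Nat.gcd p.1 p.2 := Nat.le_mul_of_pos_right _ h6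
        _ = p.1 := h3
        _ ≤ H := (hF _ hp1).2
    · calc (rp p.1 p.2).2 ≤ (rp p.1 p.2).2 * Nat.gcd p.1 p.2 := Nat.le_mul_of_pos_right _ h6
        _ = p.2 := h4
        _ ≤ H := (hF _ hp2).2
  have h2 : ∀ r ∈ RR F, ∀ r' ∈ RR F, r ≠ r' → r.1 * r'.2 ≠ r'.1 * r.2 := by
    intro r hr r' hr' hne h
    obtain ⟨h3, h4⟩ := GRR_uniq (h1 r hr).1 (h1 r hr).2.2.2.2 (h1 r' hr').2.2.2.2 h
    exact hne (Prod.ext h3 h4)
  refine ⟨h1, h2, ?_, ?_, ?_⟩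
  · intro p hp p' hp' h hor
    obtain ⟨hp1, hp2⟩ := GRR_mem hp
    obtain ⟨hp1', hp2'⟩ := GRR_mem hp'
    obtain ⟨a1, a2, a3, a4, a5, a6⟩ := GRR_one (hF _ hp1).1 (hF _ hp2).1
    obtain ⟨b1, b2, b3, b4, b5, b6⟩ := GRR_one (hF _ hp1').1 (hF _ hp2').1
    rw [h] at a1 a2 a3 a4
    have hg : Nat.gcd p.1 p.2 = Nat.gcd p'.1 p'.2 := by
      rcases hor with h5 | h5
      · refine Nat.eq_of_mul_eq_mul_left b1 ?_
        rw [a3, b3, h5]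
      · refine Nat.eq_of_mul_eq_mul_left b2 ?_
        rw [a4, b4, h5]
    refine Prod.ext ?_ ?_
    · exact a3.symm.trans ((congrArg (fun x => (rp p'.1 p'.2).1 * x) hg).trans b3)
    · exact a4.symm.trans ((congrArg (fun x => (rp p'.1 p'.2).2 * x) hg).trans b4)
  · refine card_le_card_of_injOn (fun r : ℕ × ℕ => (r.1 : ℚ) / r.2) ?_ ?_
    · intro r hr
      obtain ⟨p, hp, rfl⟩ := GRR_rr hr
      obtain ⟨hp1, hp2⟩ := GRR_mem hp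
      obtain ⟨a1, a2, a3, a4, a5, a6⟩ := GRR_one (hF _ hp1).1 (hF _ hp2).1
      have hmem : ((rp p.1 p.2).1 : ℚ) / (rp p.1 p.2).2 = (p.1 : ℚ) / p.2 := by
        have hg : ((Nat.gcd p.1 p.2 : ℕ) : ℚ) ≠ 0 := by exact_mod_cast a6.ne'
        have h3 : (p.1 : ℚ) = (rp p.1 p.2).1 * (Nat.gcd p.1 p.2 : ℕ) := by exact_mod_cast a3.symm
        have h4 : (p.2 : ℚ) = (rp p.1 p.2).2 * (Nat.gcd p.1 p.2 : ℕ) := by exact_mod_cast a4.symm
        calc ((rp p.1 p.2).1 : ℚ) / (rp p.1 p.2).2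
            = ((rp p.1 p.2).1 * (Nat.gcd p.1 p.2 : ℕ)) / ((rp p.1 p.2).2 * (Nat.gcd p.1 p.2 : ℕ)) :=
              (mul_div_mul_right _ _ hg).symm
          _ = (p.1 : ℚ) / p.2 := by rw [← h3, ← h4]
      show ((rp p.1 p.2).1 : ℚ) / (rp p.1 p.2).2 ∈ (QF F : Set ℚ)
      rw [hmem]
      exact mem_coe.2 (mem_image.2 ⟨p, mem_product.2 ⟨hp1, hp2⟩, rfl⟩)
    · intro r hr r' hr' h
      by_contra hne
      refine h2 r hr r' hr' hne ?_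
      have hr2 : (r.2 : ℚ) ≠ 0 := by
        have := (h1 r hr).2.2.1
        exact_mod_cast (by omega : r.2 ≠ 0)
      have hr2' : (r'.2 : ℚ) ≠ 0 := by
        have := (h1 r' hr').2.2.1
        exact_mod_cast (by omega : r'.2 ≠ 0)
      have h3 : (r.1 : ℚ) / r.2 = (r'.1 : ℚ) / r'.2 := h
      rw [div_eq_div_iff hr2 hr2'] at h3
      exact_mod_cast h3
  · rcases F.eq_empty_or_nonempty with rfl | ⟨s₀, hs₀⟩
    · simp
    · refine card_le_card_of_injOn (fun s : ℕ => (s : ℚ) / s₀) ?_ ?_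
      · intro s hs
        exact mem_coe.2 (mem_image.2 ⟨(s, s₀), mem_product.2 ⟨hs, hs₀⟩, rfl⟩)
      · intro s hs s' hs' h
        have h0 : (s₀ : ℚ) ≠ 0 := by
          have := (hF s₀ hs₀).1
          exact_mod_cast (by omega : s₀ ≠ 0)
        have h3 : (s : ℚ) / s₀ = (s' : ℚ) / s₀ := h
        rw [div_left_inj' h0] at h3
        exact_mod_cast h3

end Pool.Agent.OM
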