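import Pool.Agent.helper10.OM.SpecH

/-!
MP_bf63dc, project OM, row HIN: the subgroup generated by the good numbers
-/

set_option autoImplicit false

namespace Pool.Agent.OM

open Finset Real Pool.Agent.AT Pool.Agent.helper85.FC

theorem HIN (h1 : HGX_stmt) : HIN_stmt := by
  intro hD4 ε hε H hG hmul _ x hx
  obtain ⟨i, j, hij, g, g', hg, hg', he⟩ := hD4 (min ε (1 / 13)) (lt_min hε (by norm_num))
    ((min_le_right _ _).trans_lt (by norm_num)) x hx
  refine ⟨i, j, hij, ?_⟩
  rw [he]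
  exact hmul _ (hG _ (h1.2.2 _ _ _ (min_le_left _ _) hg)) _ (hG _ (h1.2.2 _ _ _ (min_le_left _ _) hg'))

end Pool.Agent.OM
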